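import Pool.Agent.Lib.MP76b19e.Ph.Proc

/-!
# The flow from the independent `k`-sets to their supersets (problem MP_76b19e_co)

`up`: one uniform pick among the undominated vertices of `W`. `flow`: if the mass `ρ` of the
independent `k`-sets is at least one and `C` times the mass is covered by the budget at all maximal
sets with `k, ..., k + s - 1` elements and at all sets with `k + s` elements, then the total budget
is at least `C`.
-/

set_option autoImplicit false

open Finset

namespace MP76b19e.Ph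

open MP76b19e.Rob

variable {V : Type} [DecidableEq V] (F : SimpleGraph V) (W : Finset V)

/-- one more pick -/
noncomputable def up (ρ : Finset V → ℝ) (K : Finset V) : ℝ :=
  ∑ v ∈ K, ρ (K.erase v) / ((Und F W (K.erase v)).card : ℝ)

/-- the masses after `i` more picks -/
noncomputable def Rs (ρ : Finset V → ℝ) : ℕ → Finset V → ℝ
  | 0 => ρ
  | i + 1 => up F W (Rs ρ i)

/-- the budgets after `i` more picks -/
noncomputable def Bs (c : Finset V → ℝ) : ℕ → Finset V → ℝ
  | 0 => c
  | i + 1 => fun K => c K + up F W (Bs c i) K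

variable {F W}

theorem mem_Ind_erase {K : Finset V} (hK : K ∈ Ind F W) (v : V) : K.erase v ∈ Ind F W := by
  rw [mem_Ind] at hK ⊢
  exact ⟨(erase_subset v K).trans hK.1, fun x hx y hy =>
    hK.2 x (mem_of_mem_erase hx) y (mem_of_mem_erase hy)⟩

theorem mem_Und_erase {K : Finset V} (hK : K ∈ Ind F W) {v : V} (hv : v ∈ K) :
    v ∈ Und F W (K.erase v) := by
  rw [mem_Ind] at hK
  rw [mem_Und]
  refine ⟨hK.1 hv, fun k hk => ⟨(ne_of_mem_erase hk).symm, hK.2 v hv k (mem_of_mem_erase hk)⟩⟩

/-- the mass is transported -/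
theorem up_sum (ρ : Finset V → ℝ) (m : ℕ) :
    ∑ K ∈ (Ind F W).filter (fun K => K.card = m + 1), up F W ρ K =
      ∑ K ∈ (Ind F W).filter (fun K => K.card = m ∧ Und F W K ≠ ∅), ρ K := by
  classical
  unfold up
  have h1 : ∑ K ∈ (Ind F W).filter (fun K => K.card = m ∧ Und F W K ≠ ∅), ρ K =
      ∑ K ∈ (Ind F W).filter (fun K => K.card = m), ∑ _v ∈ Und F W K,
        ρ K / ((Und F W K).card : ℝ) := by
    rw [← filter_filter, sum_filter]
    refine sum_congr rfl fun K _ => ?_
    rw [sum_const, nsmul_eq_mul]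
    by_cases h : Und F W K = ∅
    · rw [if_neg (fun h' => h' h), h, card_empty, Nat.cast_zero, zero_mul]
    · have h2 : ((Und F W K).card : ℝ) ≠ 0 := by
        have := card_pos.2 (nonempty_iff_ne_empty.2 h)
        exact_mod_cast this.ne'
      rw [if_pos h]
      field_simp
  rw [h1, sum_sigma', sum_sigma']
  refine sum_bij' (fun p _ => ⟨p.1.erase p.2, p.2⟩) (fun p _ => ⟨insert p.2 p.1, p.2⟩)
    ?_ ?_ ?_ ?_ ?_
  · rintro ⟨K, v⟩ hp
    rw [mem_sigma, mem_filter] at hp
    obtain ⟨⟨hK, hc⟩, hv⟩ := hp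
    simp only at hK hc hv ⊢
    rw [mem_sigma, mem_filter]
    refine ⟨⟨mem_Ind_erase hK v, ?_⟩, mem_Und_erase hK hv⟩
    simp only
    rw [card_erase_of_mem hv]
    omega
  · rintro ⟨K, v⟩ hp
    rw [mem_sigma, mem_filter] at hp
    obtain ⟨⟨hK, hc⟩, hv⟩ := hp
    simp only at hK hc hv ⊢
    rw [mem_sigma, mem_filter]
    refine ⟨⟨insert_mem_Ind hK hv, ?_⟩, mem_insert_self v K⟩
    simp only
    rw [card_insert_of_notMem fun h => ((mem_Und.1 hv).2 v h).1 rfl, hc]
  · rintro ⟨K, v⟩ hp
    rw [mem_sigma] at hp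
    simp only
    rw [insert_erase hp.2]
  · rintro ⟨K, v⟩ hp
    rw [mem_sigma] at hp
    simp only
    rw [erase_insert fun h => ((mem_Und.1 hp.2).2 v h).1 rfl]
  · rintro ⟨K, v⟩ hp
    rfl

theorem up_sub (ρ ρ' : Finset V → ℝ) (K : Finset V) :
    up F W (fun K => ρ K - ρ' K) K = up F W ρ K - up F W ρ' K := by
  unfold up
  rw [← sum_sub_distrib]
  exact sum_congr rfl fun v _ => sub_div _ _ _

theorem up_smul (C : ℝ) (ρ : Finset V → ℝ) (K : Finset V) :
    up F W (fun K => C * ρ K) K = C * up F W ρ K := by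
  unfold up
  rw [mul_sum]
  exact sum_congr rfl fun v _ => mul_div_assoc _ _ _

theorem flow {c ρ : Finset V → ℝ} (hc : ∀ K, 0 ≤ c K) {k s : ℕ} {C : ℝ} (hC : 0 ≤ C)
    (hρ : 1 ≤ ∑ K ∈ (Ind F W).filter (fun K => K.card = k), ρ K)
    (hA : ∀ i < s, ∀ K ∈ Ind F W, K.card = k + i → Und F W K = ∅ →
      C * Rs F W ρ i K ≤ Bs F W c i K)
    (hB : ∀ K ∈ Ind F W, K.card = k + s → C * Rs F W ρ s K ≤ Bs F W c s K) :
    C ≤ ∑ K ∈ Ind F W, c K := by
  classical
  set D : ℕ → ℝ := fun i => ∑ K ∈ (Ind F W).filter (fun K => K.card = k + i),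
    (Bs F W c i K - C * Rs F W ρ i K) with hD
  set c' : ℕ → ℝ := fun i => ∑ K ∈ (Ind F W).filter (fun K => K.card = k + i), c K with hc'
  have hstep : ∀ i < s, D (i + 1) ≤ D i + c' (i + 1) := by
    intro i hi
    have h1 : D (i + 1) = c' (i + 1) +
        ∑ K ∈ (Ind F W).filter (fun K => K.card = k + i + 1),
          up F W (fun K => Bs F W c i K - C * Rs F W ρ i K) K := by
      simp only [hD, hc']
      rw [show k + i + 1 = k + (i + 1) by ring, ← sum_add_distrib]
      refine sum_congr rfl fun K _ => ?_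
      rw [up_sub, up_smul]
      simp only [Bs, Rs]
      ring
    rw [h1, up_sum]
    have h2 : ∑ K ∈ (Ind F W).filter (fun K => K.card = k + i ∧ Und F W K ≠ ∅),
        (Bs F W c i K - C * Rs F W ρ i K) ≤ D i := by
      simp only [hD]
      refine sum_le_sum_of_subset_of_nonneg ?_ ?_
      · intro K hK
        rw [mem_filter] at hK ⊢
        exact ⟨hK.1, hK.2.1⟩
      · intro K hK hK'
        rw [mem_filter] at hK hK'
        have h3 : Und F W K = ∅ := by
          by_contra h4
          exact hK' ⟨hK.1, hK.2, h4⟩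
        have := hA i hi K hK.1 hK.2 h3
        linarith
    linarith
  have hDs : ∀ i ≤ s, D i ≤ D 0 + ∑ j ∈ range i, c' (j + 1) := by
    intro i
    induction i with
    | zero =>
      intro _
      rw [range_zero, sum_empty, add_zero]
    | succ i ih =>
      intro hi
      have h1 := ih (by omega)
      have h2 := hstep i (by omega)
      rw [sum_range_succ]
      linarith
  have h0 : 0 ≤ D s := by
    simp only [hD]
    refine sum_nonneg fun K hK => ?_
    rw [mem_filter] at hK
    have := hB K hK.1 hK.2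
    linarith
  have h1 : D 0 = c' 0 - C * ∑ K ∈ (Ind F W).filter (fun K => K.card = k), ρ K := by
    simp only [hD, hc', Bs, Rs, add_zero]
    rw [sum_sub_distrib, mul_sum]
  have h2 : c' 0 + ∑ j ∈ range s, c' (j + 1) ≤ ∑ K ∈ Ind F W, c K := by
    rw [add_comm, ← sum_range_succ' c' s]
    simp only [hc']
    rw [← sum_biUnion]
    · exact sum_le_sum_of_subset_of_nonneg (biUnion_subset.2 fun i _ => filter_subset _ _)
        fun K _ _ => hc K
    · intro i _ j _ hij
      rw [Function.onFun, disjoint_left]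
      intro K hK hK'
      rw [mem_filter] at hK hK'
      exact hij (by omega)
  have h3 := hDs s le_rfl
  nlinarith

end MP76b19e.Ph
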