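import Pool.Agent.Lib.MP76b19e.Rob.Split

/-!
# The phase process (problem MP_76b19e_co)

`PV F xs T K`: after the elements of `T` have been picked, the next picks, uniform in the
undominated parts of the sets of the list `xs`, form the set `K`.
-/

set_option autoImplicit false

open Finset

namespace MP76b19e.Ph

open MP76b19e.Rob

variable {V : Type} [DecidableEq V] (F : SimpleGraph V)

/-- the probability that the next picks form the set `K` -/
noncomputable def PV : List (Finset V) → Finset V → Finset V → ℝ
  | [], _, K => if K = ∅ then 1 else 0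
  | X :: xs, T, K =>
    (∑ v ∈ K, if v ∈ Und F X T then PV xs (insert v T) (K.erase v) else 0) /
      ((Und F X T).card : ℝ)

variable {F}

theorem PV_nil (T K : Finset V) : PV F [] T K = if K = ∅ then 1 else 0 := rfl

theorem PV_cons (X : Finset V) (xs : List (Finset V)) (T K : Finset V) :
    PV F (X :: xs) T K =
      (∑ v ∈ K, if v ∈ Und F X T then PV F xs (insert v T) (K.erase v) else 0) /
        ((Und F X T).card : ℝ) := rfl

theorem PV_nonneg (xs : List (Finset V)) (T K : Finset V) : 0 ≤ PV F xs T K := by
  induction xs generalizing T K with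
  | nil =>
    rw [PV_nil]
    split_ifs
    · exact zero_le_one
    · exact le_rfl
  | cons X xs ih =>
    rw [PV_cons]
    refine div_nonneg (sum_nonneg fun v _ => ?_) (Nat.cast_nonneg _)
    split_ifs
    · exact ih _ _
    · exact le_rfl

theorem PV_card {xs : List (Finset V)} {T K : Finset V} (h : PV F xs T K ≠ 0) :
    K.card = xs.length := by
  induction xs generalizing T K with
  | nil =>
    rw [PV_nil] at h
    by_cases hK : K = ∅
    · rw [hK, card_empty, List.length_nil]
    · rw [if_neg hK] at h
      exact absurd rfl h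
  | cons X xs ih =>
    rw [PV_cons] at h
    have h1 : ∑ v ∈ K, (if v ∈ Und F X T then PV F xs (insert v T) (K.erase v) else 0) ≠ 0 := by
      intro h0
      rw [h0, zero_div] at h
      exact h rfl
    obtain ⟨v, hv, h2⟩ := exists_ne_zero_of_sum_ne_zero h1
    by_cases hU : v ∈ Und F X T
    · rw [if_pos hU] at h2
      have h3 := ih h2
      have h4 := card_erase_of_mem hv
      have h5 : 0 < K.card := card_pos.2 ⟨v, hv⟩
      rw [List.length_cons]
      omega
    · rw [if_neg hU] at h2
      exact absurd rfl h2

theorem PV_disjoint {xs : List (Finset V)} {T K : Finset V} (h : PV F xs T K ≠ 0) :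
    Disjoint T K := by
  induction xs generalizing T K with
  | nil =>
    rw [PV_nil] at h
    by_cases hK : K = ∅
    · rw [hK]
      exact disjoint_empty_right T
    · rw [if_neg hK] at h
      exact absurd rfl h
  | cons X xs ih =>
    rw [PV_cons] at h
    have h1 : ∑ v ∈ K, (if v ∈ Und F X T then PV F xs (insert v T) (K.erase v) else 0) ≠ 0 := by
      intro h0
      rw [h0, zero_div] at h
      exact h rfl
    obtain ⟨v, hv, h2⟩ := exists_ne_zero_of_sum_ne_zero h1
    by_cases hU : v ∈ Und F X T
    · rw [if_pos hU] at h2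
      have h3 := ih h2
      rw [disjoint_left] at h3 ⊢
      intro x hx hxK
      have h4 : x ≠ v := by
        rintro rfl
        exact ((mem_Und.1 hU).2 x hx).1 rfl
      exact h3 (mem_insert_of_mem hx) (mem_erase.2 ⟨h4, hxK⟩)
    · rw [if_neg hU] at h2
      exact absurd rfl h2

/-- the picked sets are independent -/
theorem PV_ind {W : Finset V} {xs : List (Finset V)} {T K : Finset V} (hxs : ∀ X ∈ xs, X ⊆ W)
    (hT : T ∈ Ind F W) (h : PV F xs T K ≠ 0) : T ∪ K ∈ Ind F W := by
  induction xs generalizing T K with
  | nil =>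
    rw [PV_nil] at h
    by_cases hK : K = ∅
    · rw [hK, union_empty]
      exact hT
    · rw [if_neg hK] at h
      exact absurd rfl h
  | cons X xs ih =>
    rw [PV_cons] at h
    have h1 : ∑ v ∈ K, (if v ∈ Und F X T then PV F xs (insert v T) (K.erase v) else 0) ≠ 0 := by
      intro h0
      rw [h0, zero_div] at h
      exact h rfl
    obtain ⟨v, hv, h2⟩ := exists_ne_zero_of_sum_ne_zero h1
    by_cases hU : v ∈ Und F X T
    · rw [if_pos hU] at h2
      have h3 : v ∈ Und F W T := by
        rw [mem_Und] at hU ⊢
        exact ⟨hxs X (List.mem_cons_self ..) hU.1, hU.2⟩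
      have h4 := ih (fun Z hZ => hxs Z (List.mem_cons_of_mem _ hZ)) (insert_mem_Ind hT h3) h2
      have h5 : insert v T ∪ K.erase v = T ∪ K := by
        ext x
        simp only [mem_union, mem_insert, mem_erase]
        by_cases hx : x = v
        · rw [hx]
          simp [hv]
        · simp [hx]
      rwa [h5] at h4
    · rw [if_neg hU] at h2
      exact absurd rfl h2

theorem insert_union_erase' {T K0 : Finset V} {v : V} (hv : v ∈ K0) :
    insert v T ∪ K0.erase v = T ∪ K0 := by
  ext x
  simp only [mem_union, mem_insert, mem_erase]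
  by_cases hx : x = v
  · rw [hx]
    simp [hv]
  · simp [hx]

/-- summation over the subsets with a marked element -/
theorem sum_powerset_mem (K : Finset V) (f : V → Finset V → ℝ) :
    ∑ K0 ∈ K.powerset, ∑ v ∈ K0, f v K0 = ∑ v ∈ K, ∑ K1 ∈ (K.erase v).powerset, f v (insert v K1) := by
  have h1 : ∑ K0 ∈ K.powerset, ∑ v ∈ K0, f v K0 =
      ∑ v ∈ K, ∑ K0 ∈ K.powerset.filter (fun K0 => v ∈ K0), f v K0 := by
    apply sum_comm'
    intro K0 v
    rw [mem_powerset, mem_filter, mem_powerset]
    constructor
    · rintro ⟨h1, h2⟩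
      exact ⟨⟨h1, h2⟩, h1 h2⟩
    · rintro ⟨⟨h1, h2⟩, _⟩
      exact ⟨h1, h2⟩
  rw [h1]
  refine sum_congr rfl fun v hv => ?_
  refine sum_bij' (fun K0 _ => K0.erase v) (fun K1 _ => insert v K1) ?_ ?_ ?_ ?_ ?_
  · intro K0 hK0
    rw [mem_filter, mem_powerset] at hK0
    rw [mem_powerset]
    exact erase_subset_erase v hK0.1
  · intro K1 hK1
    rw [mem_powerset] at hK1
    rw [mem_filter, mem_powerset]
    exact ⟨insert_subset hv (hK1.trans (erase_subset _ _)), mem_insert_self v K1⟩
  · intro K0 hK0
    rw [mem_filter] at hK0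
    exact insert_erase hK0.2
  · intro K1 hK1
    rw [mem_powerset] at hK1
    exact erase_insert fun h => notMem_erase v K (hK1 h)
  · intro K0 hK0
    rw [mem_filter] at hK0
    rw [insert_erase hK0.2]

/-- the Markov property -/
theorem PV_append (xs ys : List (Finset V)) (T K : Finset V) :
    PV F (xs ++ ys) T K = ∑ K0 ∈ K.powerset, PV F xs T K0 * PV F ys (T ∪ K0) (K \ K0) := by
  induction xs generalizing T K with
  | nil =>
    rw [List.nil_append, sum_eq_single ∅]
    · rw [PV_nil, if_pos rfl, one_mul, union_empty, sdiff_empty]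
    · intro K0 _ h0
      rw [PV_nil, if_neg h0, zero_mul]
    · intro h
      exact absurd (empty_mem_powerset K) h
  | cons X xs ih =>
    rw [List.cons_append, PV_cons]
    have h1 : ∑ K0 ∈ K.powerset, PV F (X :: xs) T K0 * PV F ys (T ∪ K0) (K \ K0) =
        (∑ K0 ∈ K.powerset, ∑ v ∈ K0, (if v ∈ Und F X T then PV F xs (insert v T) (K0.erase v)
          else 0) * PV F ys (T ∪ K0) (K \ K0)) / ((Und F X T).card : ℝ) := by
      rw [sum_div]
      refine sum_congr rfl fun K0 _ => ?_
      rw [PV_cons, div_mul_eq_mul_div, sum_mul]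
    rw [h1, sum_powerset_mem K (fun v K0 => (if v ∈ Und F X T then PV F xs (insert v T)
      (K0.erase v) else 0) * PV F ys (T ∪ K0) (K \ K0))]
    congr 1
    refine sum_congr rfl fun v hv => ?_
    by_cases hU : v ∈ Und F X T
    · rw [if_pos hU, ih]
      refine sum_congr rfl fun K1 hK1 => ?_
      rw [mem_powerset] at hK1
      have hvK1 : v ∉ K1 := fun h => notMem_erase v K (hK1 h)
      rw [if_pos hU, erase_insert hvK1]
      congr 2
      · ext x
        simp only [mem_union, mem_insert]
        tauto
      · ext x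
        simp only [mem_sdiff, mem_insert, mem_erase]
        tauto
    · rw [if_neg hU]
      symm
      refine sum_eq_zero fun K1 _ => ?_
      rw [if_neg hU, zero_mul]

theorem PV_singleton (X T K : Finset V) :
    PV F [X] T K = if ∃ v ∈ Und F X T, K = {v} then 1 / ((Und F X T).card : ℝ) else 0 := by
  rw [PV_cons]
  by_cases h : ∃ v ∈ Und F X T, K = {v}
  · rw [if_pos h]
    obtain ⟨v, hv, rfl⟩ := h
    rw [sum_singleton, if_pos hv, erase_singleton, PV_nil, if_pos rfl]
  · rw [if_neg h]
    have h1 : ∑ v ∈ K, (if v ∈ Und F X T then PV F [] (insert v T) (K.erase v) else 0) = 0 := by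
      refine sum_eq_zero fun v hv => ?_
      split_ifs with hU
      · rw [PV_nil, if_neg]
        intro h2
        apply h
        refine ⟨v, hU, ?_⟩
        rw [erase_eq_empty_iff] at h2
        rcases h2 with h2 | h2
        · rw [h2] at hv
          exact absurd hv (notMem_empty v)
        · exact h2
      · rfl
    rw [h1, zero_div]

/-- one more pick -/
theorem sum_singleton_pick (f : Finset V → ℝ) (g : Finset V → Finset V) (X K : Finset V) :
    ∑ K0 ∈ K.powerset, f K0 * PV F [X] (g K0) (K \ K0) = ∑ v ∈ K,
      if v ∈ Und F X (g (K.erase v)) then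
        f (K.erase v) / ((Und F X (g (K.erase v))).card : ℝ) else 0 := by
  have h1 : ∀ K0 ∈ K.powerset, f K0 * PV F [X] (g K0) (K \ K0) =
      ∑ v ∈ K, if v ∈ Und F X (g K0) ∧ K0 = K.erase v then
        f K0 / ((Und F X (g K0)).card : ℝ) else 0 := by
    intro K0 hK0
    rw [mem_powerset] at hK0
    rw [PV_singleton]
    by_cases h : ∃ v ∈ Und F X (g K0), K \ K0 = {v}
    · rw [if_pos h]
      obtain ⟨v, hv, hv2⟩ := h
      have hvK : v ∈ K ∧ v ∉ K0 := by
        rw [← mem_sdiff, hv2]
        exact mem_singleton_self v
      have hK0' : K0 = K.erase v := by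
        ext x
        rw [mem_erase]
        constructor
        · intro hx
          refine ⟨?_, hK0 hx⟩
          rintro rfl
          exact hvK.2 hx
        · rintro ⟨h1, h2⟩
          by_contra h3
          have : x ∈ K \ K0 := mem_sdiff.2 ⟨h2, h3⟩
          rw [hv2, mem_singleton] at this
          exact h1 this
      rw [sum_eq_single v]
      · rw [if_pos ⟨hv, hK0'⟩, mul_one_div]
      · intro u huK hne
        rw [if_neg]
        rintro ⟨_, h3⟩
        rw [hK0'] at h3
        have h4 : u ∈ K.erase v := mem_erase.2 ⟨hne, huK⟩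
        rw [h3] at h4
        exact notMem_erase u K h4
      · intro h2
        exact absurd hvK.1 h2
    · rw [if_neg h, mul_zero]
      symm
      refine sum_eq_zero fun v hv => ?_
      rw [if_neg]
      rintro ⟨h2, h3⟩
      apply h
      refine ⟨v, h2, ?_⟩
      rw [h3, sdiff_erase hv, Finset.sdiff_self, insert_empty_eq]
  rw [sum_congr rfl h1, sum_comm]
  refine sum_congr rfl fun v hv => ?_
  rw [sum_eq_single (K.erase v)]
  · by_cases hU : v ∈ Und F X (g (K.erase v))
    · rw [if_pos ⟨hU, rfl⟩, if_pos hU]
    · rw [if_neg (fun h => hU h.1), if_neg hU]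
  · intro K0 _ hne
    rw [if_neg (fun h => hne h.2)]
  · intro h
    exact absurd (mem_powerset.2 (erase_subset v K)) h

/-- the last pick -/
theorem PV_snoc (xs : List (Finset V)) (X T K : Finset V) :
    PV F (xs ++ [X]) T K = ∑ v ∈ K, if v ∈ Und F X (T ∪ K.erase v) then
      PV F xs T (K.erase v) / ((Und F X (T ∪ K.erase v)).card : ℝ) else 0 := by
  rw [PV_append]
  exact sum_singleton_pick (fun K0 => PV F xs T K0) (fun K0 => T ∪ K0) X K

variable (F) in
/-- all picks are possible -/
def Ok : List (Finset V) → Finset V → Prop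
  | [], _ => True
  | X :: xs, T => (Und F X T).Nonempty ∧ ∀ v ∈ Und F X T, Ok xs (insert v T)

/-- the total probability -/
theorem PV_total {W : Finset V} {xs : List (Finset V)} {T : Finset V} (hxs : ∀ X ∈ xs, X ⊆ W)
    (h : Ok F xs T) : ∑ K ∈ W.powerset, PV F xs T K = 1 := by
  induction xs generalizing T with
  | nil =>
    rw [sum_eq_single ∅]
    · rw [PV_nil, if_pos rfl]
    · intro K _ hK
      rw [PV_nil, if_neg hK]
    · intro h1
      exact absurd (empty_mem_powerset W) h1
  | cons X xs ih =>
    have hpos : (0 : ℝ) < ((Und F X T).card : ℝ) := by exact_mod_cast card_pos.2 h.1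
    simp only [PV_cons]
    rw [← sum_div, sum_powerset_mem W (fun v K => if v ∈ Und F X T then
      PV F xs (insert v T) (K.erase v) else 0), div_eq_one_iff_eq hpos.ne']
    have hXW : X ⊆ W := hxs X (List.mem_cons_self ..)
    have h1 : ∀ v ∈ W, (∑ K1 ∈ (W.erase v).powerset, if v ∈ Und F X T then
        PV F xs (insert v T) ((insert v K1).erase v) else 0) =
        if v ∈ Und F X T then 1 else 0 := by
      intro v _
      by_cases hU : v ∈ Und F X T
      · rw [if_pos hU]
        rw [← ih (fun Z hZ => hxs Z (List.mem_cons_of_mem _ hZ)) (h.2 v hU)]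
        have h2 : ∑ K ∈ (W.erase v).powerset, PV F xs (insert v T) K =
            ∑ K ∈ W.powerset, PV F xs (insert v T) K := by
          refine sum_subset (powerset_mono.2 (erase_subset v W)) fun K hK hK' => ?_
          by_contra h3
          have h4 := PV_disjoint h3
          rw [mem_powerset] at hK hK'
          apply hK'
          intro x hx
          rw [mem_erase]
          refine ⟨?_, hK hx⟩
          rintro rfl
          exact (disjoint_left.1 h4) (mem_insert_self x T) hx
        rw [← h2]
        refine sum_congr rfl fun K1 hK1 => ?_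
        rw [mem_powerset] at hK1
        rw [if_pos hU, erase_insert fun h5 => notMem_erase v W (hK1 h5)]
      · rw [if_neg hU]
        exact sum_eq_zero fun K1 _ => if_neg hU
    rw [sum_congr rfl h1, sum_ite_mem, sum_const, nsmul_eq_mul, mul_one]
    congr 2
    rw [inter_eq_right]
    intro v hv
    exact hXW (mem_Und.1 hv).1

end MP76b19e.Ph
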