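import Pool.Agent.Lib.MP76b19e.Ph.Flow
import Pool.Agent.Lib.MP76b19e.Rob.Loc

/-!
# The phases (problem MP_76b19e_co)

`mix ρ ys`: the first picks are distributed by `ρ`, the others follow the list `ys`. `phl X ν N`: the
phases `0, ..., N - 1`. `Loc.flow`: the lower bound of the total budget, given the inequalities
for the maximal sets and for the sets with one element more.
-/

set_option autoImplicit false

open Finset

namespace MP76b19e.Ph

open MP76b19e.Rob

section

variable {V : Type} [DecidableEq V] (F : SimpleGraph V)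

/-- the distribution of the picked set after the picks of `ys`, started with `ρ` -/
noncomputable def mix (ρ : Finset V → ℝ) (ys : List (Finset V)) (K : Finset V) : ℝ :=
  ∑ K0 ∈ K.powerset, ρ K0 * PV F ys K0 (K \ K0)

variable {F}

theorem mix_nonneg {ρ : Finset V → ℝ} (hρ : ∀ K, 0 ≤ ρ K) (ys : List (Finset V)) (K : Finset V) :
    0 ≤ mix F ρ ys K := sum_nonneg fun K0 _ => mul_nonneg (hρ K0) (PV_nonneg _ _ _)

theorem mix_nil (ρ : Finset V → ℝ) (K : Finset V) : mix F ρ [] K = ρ K := by
  unfold mix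
  rw [sum_eq_single K]
  · rw [PV_nil, Finset.sdiff_self, if_pos rfl, mul_one]
  · intro K0 hK0 hne
    rw [PV_nil, if_neg, mul_zero]
    intro h
    rw [sdiff_eq_empty_iff_subset] at h
    exact hne (Subset.antisymm (mem_powerset.1 hK0) h)
  · intro h
    exact absurd (mem_powerset_self K) h

/-- summation over pairs of nested sets -/
theorem sum_powerset_nested (K : Finset V) (f : Finset V → Finset V → ℝ) :
    ∑ K0 ∈ K.powerset, ∑ A ∈ (K \ K0).powerset, f K0 A =
      ∑ K1 ∈ K.powerset, ∑ K0 ∈ K1.powerset, f K0 (K1 \ K0) := by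
  rw [sum_sigma', sum_sigma']
  refine sum_bij' (fun p _ => ⟨p.1 ∪ p.2, p.1⟩) (fun p _ => ⟨p.2, p.1 \ p.2⟩) ?_ ?_ ?_ ?_ ?_
  · rintro ⟨K0, A⟩ hp
    rw [mem_sigma, mem_powerset, mem_powerset] at hp
    rw [mem_sigma, mem_powerset, mem_powerset]
    exact ⟨union_subset hp.1 (hp.2.trans sdiff_subset), subset_union_left⟩
  · rintro ⟨K1, K0⟩ hp
    rw [mem_sigma, mem_powerset, mem_powerset] at hp
    rw [mem_sigma, mem_powerset, mem_powerset]
    exact ⟨hp.2.trans hp.1, sdiff_subset_sdiff hp.1 (Subset.refl _)⟩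
  · rintro ⟨K0, A⟩ hp
    rw [mem_sigma, mem_powerset, mem_powerset] at hp
    have h1 : (K0 ∪ A) \ K0 = A := by
      rw [union_sdiff_left, Finset.sdiff_eq_self_iff_disjoint]
      exact disjoint_of_subset_left hp.2 sdiff_disjoint
    exact congrArg (Sigma.mk K0) h1
  · rintro ⟨K1, K0⟩ hp
    rw [mem_sigma, mem_powerset, mem_powerset] at hp
    have h1 : K0 ∪ K1 \ K0 = K1 := union_sdiff_of_subset hp.2
    simp only [h1]
  · rintro ⟨K0, A⟩ hp
    rw [mem_sigma, mem_powerset, mem_powerset] at hp
    have h1 : (K0 ∪ A) \ K0 = A := by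
      rw [union_sdiff_left, Finset.sdiff_eq_self_iff_disjoint]
      exact disjoint_of_subset_left hp.2 sdiff_disjoint
    simp only [h1]

theorem mix_append (ρ : Finset V → ℝ) (ys zs : List (Finset V)) (K : Finset V) :
    mix F ρ (ys ++ zs) K = mix F (mix F ρ ys) zs K := by
  unfold mix
  have h1 : ∀ K0 ∈ K.powerset, ρ K0 * PV F (ys ++ zs) K0 (K \ K0) =
      ∑ A ∈ (K \ K0).powerset, ρ K0 * PV F ys K0 A * PV F zs (K0 ∪ A) (K \ (K0 ∪ A)) := by
    intro K0 _
    rw [PV_append, mul_sum]
    refine sum_congr rfl fun A _ => ?_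
    rw [mul_assoc, sdiff_sdiff_left, sup_eq_union]
  rw [sum_congr rfl h1, sum_powerset_nested K (fun K0 A => ρ K0 * PV F ys K0 A *
    PV F zs (K0 ∪ A) (K \ (K0 ∪ A)))]
  refine sum_congr rfl fun K1 _ => ?_
  rw [sum_mul]
  refine sum_congr rfl fun K0 hK0 => ?_
  rw [union_sdiff_of_subset (mem_powerset.1 hK0)]

/-- one more pick in `W` -/
theorem up_eq_mix {W K : Finset V} (hK : K ∈ Ind F W) (ρ : Finset V → ℝ) :
    up F W ρ K = mix F ρ [W] K := by
  unfold mix
  rw [sum_singleton_pick ρ (fun K0 => K0) W K]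
  unfold up
  refine sum_congr rfl fun v hv => ?_
  rw [if_pos (mem_Und_erase hK hv)]

/-- the total mass -/
theorem mix_total {W : Finset V} {ρ : Finset V → ℝ} {ys : List (Finset V)} {n : ℕ}
    (hys : ∀ X ∈ ys, X ⊆ W) (hρ : ∀ K, ρ K ≠ 0 → K ∈ Ind F W ∧ K.card = n ∧ Ok F ys K) :
    ∑ K ∈ (Ind F W).filter (fun K => K.card = n + ys.length), mix F ρ ys K =
      ∑ K0 ∈ (Ind F W).filter (fun K => K.card = n), ρ K0 := by
  classical
  have h1 : ∑ K ∈ (Ind F W).filter (fun K => K.card = n + ys.length), mix F ρ ys K =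
      ∑ K ∈ W.powerset, mix F ρ ys K := by
    refine sum_subset ?_ fun K hK hK' => ?_
    · intro K hK
      rw [mem_filter, mem_Ind] at hK
      exact mem_powerset.2 hK.1.1
    · by_contra h0
      unfold mix at h0
      obtain ⟨K0, hK0, h2⟩ := exists_ne_zero_of_sum_ne_zero h0
      have h3 : ρ K0 ≠ 0 := left_ne_zero_of_mul h2
      have h4 : PV F ys K0 (K \ K0) ≠ 0 := right_ne_zero_of_mul h2
      have h5 := PV_ind hys (hρ K0 h3).1 h4
      have h6 := PV_card h4
      have h7 := (hρ K0 h3).2.1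
      have hs := mem_powerset.1 hK0
      rw [union_sdiff_of_subset hs] at h5
      have h8 := card_sdiff_add_card_eq_card hs
      exact hK' (mem_filter.2 ⟨h5, by omega⟩)
  have h2 : ∑ K0 ∈ (Ind F W).filter (fun K => K.card = n), ρ K0 = ∑ K0 ∈ W.powerset, ρ K0 := by
    refine sum_subset ?_ fun K hK hK' => ?_
    · intro K hK
      rw [mem_filter, mem_Ind] at hK
      exact mem_powerset.2 hK.1.1
    · by_contra h0
      exact hK' (mem_filter.2 ⟨(hρ K h0).1, (hρ K h0).2.1⟩)
  rw [h1, h2]
  unfold mix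
  have h3 : ∑ K ∈ W.powerset, ∑ K0 ∈ K.powerset, ρ K0 * PV F ys K0 (K \ K0) =
      ∑ K0 ∈ W.powerset, ∑ A ∈ (W \ K0).powerset, ρ K0 * PV F ys K0 A :=
    (sum_powerset_nested W (fun K0 A => ρ K0 * PV F ys K0 A)).symm
  rw [h3]
  refine sum_congr rfl fun K0 hK0 => ?_
  by_cases h4 : ρ K0 = 0
  · rw [h4]
    simp
  · rw [← mul_sum]
    have h5 : ∑ A ∈ (W \ K0).powerset, PV F ys K0 A = 1 := by
      rw [← PV_total hys (hρ K0 h4).2.2]
      refine sum_subset (powerset_mono.2 sdiff_subset) fun A hA hA' => ?_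
      by_contra h6
      have h7 := PV_disjoint h6
      rw [mem_powerset] at hA hA'
      apply hA'
      intro x hx
      exact mem_sdiff.2 ⟨hA hx, fun hx' => (disjoint_left.1 h7) hx' hx⟩
    rw [h5, mul_one]

open Classical in
variable (F) in
/-- the closed neighbours of `v` in `W` -/
noncomputable def cw (W : Finset V) (v : V) : Finset V := W.filter fun u => u = v ∨ F.Adj u v

theorem mem_cw {W : Finset V} {v u : V} : u ∈ cw F W v ↔ u ∈ W ∧ (u = v ∨ F.Adj u v) := by
  classical
  unfold cw
  rw [mem_filter]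

theorem card_Und_insert (W T : Finset V) (v : V) :
    (Und F W T).card ≤ (Und F W (insert v T)).card + (cw F W v).card := by
  classical
  rw [← card_union_add_card_inter]
  refine le_trans (card_le_card ?_) (Nat.le_add_right _ _)
  intro u hu
  rw [mem_Und] at hu
  rw [mem_union, mem_Und, mem_cw]
  by_cases h : u = v ∨ F.Adj u v
  · exact Or.inr ⟨hu.1, h⟩
  · left
    push Not at h
    refine ⟨hu.1, fun k hk => ?_⟩
    rcases mem_insert.1 hk with h1 | h1
    · rw [h1]
      exact h
    · exact hu.2 k h1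

variable (F) in
/-- the picks of the list (sets and caps) are possible if at most `d` vertices of `W` have been
dominated -/
def Fit (W : Finset V) : List (Finset V × ℕ) → ℕ → Prop
  | [], _ => True
  | p :: ps, d => d < p.1.card ∧ p.1 ⊆ W ∧ (∀ v ∈ p.1, (cw F W v).card ≤ p.2) ∧ Fit W ps (d + p.2)

theorem Fit_append {W : Finset V} (ps ps' : List (Finset V × ℕ)) (d : ℕ) (h : Fit F W ps d)
    (h' : Fit F W ps' (d + (ps.map Prod.snd).sum)) : Fit F W (ps ++ ps') d := by
  induction ps generalizing d with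
  | nil =>
    rw [List.map_nil, List.sum_nil, add_zero] at h'
    exact h'
  | cons p ps ih =>
    rw [List.map_cons, List.sum_cons, ← add_assoc] at h'
    exact ⟨h.1, h.2.1, h.2.2.1, ih _ h.2.2.2 h'⟩

theorem Fit_replicate {W X : Finset V} {p : ℕ} (hX : X ⊆ W) (hp : ∀ v ∈ X, (cw F W v).card ≤ p)
    (n d : ℕ) (h : d + n * p < X.card + p) : Fit F W (List.replicate n (X, p)) d := by
  induction n generalizing d with
  | zero => exact trivial
  | succ n ih =>
    rw [List.replicate_succ]
    have e : (n + 1) * p = n * p + p := by ring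
    refine ⟨?_, hX, hp, ih (d + p) (by omega)⟩
    simp only
    omega

theorem Ok_of_Fit {W : Finset V} (ps : List (Finset V × ℕ)) (d : ℕ) (T : Finset V)
    (h : Fit F W ps d) (hd : W.card ≤ (Und F W T).card + d) : Ok F (ps.map Prod.fst) T := by
  induction ps generalizing d T with
  | nil => exact trivial
  | cons p ps ih =>
    obtain ⟨h1, h2, h3, h4⟩ := h
    rw [List.map_cons]
    constructor
    · -- a pick is possible
      rw [nonempty_iff_ne_empty]
      intro h0
      have h5 : Disjoint p.1 (Und F W T) := by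
        rw [disjoint_left]
        intro v hv hv'
        have : v ∈ Und F p.1 T := by
          rw [mem_Und] at hv' ⊢
          exact ⟨hv, hv'.2⟩
        rw [h0] at this
        exact notMem_empty v this
      have h6 : (p.1 ∪ Und F W T).card ≤ W.card :=
        card_le_card (union_subset h2 fun v hv => (mem_Und.1 hv).1)
      rw [card_union_of_disjoint h5] at h6
      omega
    · intro v hv
      refine ih (d + p.2) (insert v T) h4 ?_
      have h5 := card_Und_insert (F := F) W T v
      have h6 := h3 v (mem_Und.1 hv).1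
      omega

end

/-- the phases below `N` -/
def phl {V : Type} (X : ℕ → Finset V) (ν : ℕ → ℕ) : ℕ → List (Finset V)
  | 0 => []
  | N + 1 => phl X ν N ++ List.replicate (ν N) (X N)

theorem phl_length {V : Type} (X : ℕ → Finset V) (ν : ℕ → ℕ) (N : ℕ) :
    (phl X ν N).length = ∑ j ∈ range N, ν j := by
  induction N with
  | zero => rfl
  | succ N ih =>
    change (phl X ν N ++ List.replicate (ν N) (X N)).length = _
    rw [List.length_append, List.length_replicate, ih, sum_range_succ]

theorem phl_succ' {V : Type} (X : ℕ → Finset V) (ν : ℕ → ℕ) (N : ℕ) :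
    phl X ν (N + 1) = List.replicate (ν 0) (X 0) ++ phl (fun j => X (j + 1)) (fun j => ν (j + 1)) N := by
  induction N with
  | zero => simp [phl]
  | succ N ih =>
    change phl X ν (N + 1) ++ List.replicate (ν (N + 1)) (X (N + 1)) = _
    rw [ih, List.append_assoc]
    rfl

theorem mem_phl {V : Type} {X : ℕ → Finset V} {ν : ℕ → ℕ} {N : ℕ} {A : Finset V}
    (h : A ∈ phl X ν N) : ∃ j < N, A = X j := by
  induction N with
  | zero => exact absurd h (by simp [phl])
  | succ N ih =>
    have h' : A ∈ phl X ν N ++ List.replicate (ν N) (X N) := h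
    rw [List.mem_append] at h'
    rcases h' with h' | h'
    · obtain ⟨j, hj, h2⟩ := ih h'
      exact ⟨j, by omega, h2⟩
    · exact ⟨N, by omega, (List.mem_replicate.1 h').2⟩

/-- the phases with their caps -/
def phlp {V : Type} (X : ℕ → Finset V) (P ν : ℕ → ℕ) : ℕ → List (Finset V × ℕ)
  | 0 => []
  | N + 1 => phlp X P ν N ++ List.replicate (ν N) (X N, P N)

theorem phlp_fst {V : Type} (X : ℕ → Finset V) (P ν : ℕ → ℕ) (N : ℕ) :
    (phlp X P ν N).map Prod.fst = phl X ν N := by
  induction N with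
  | zero => rfl
  | succ N ih =>
    change (phlp X P ν N ++ List.replicate (ν N) (X N, P N)).map Prod.fst =
      phl X ν N ++ List.replicate (ν N) (X N)
    rw [List.map_append, ih, List.map_replicate]

theorem phlp_snd {V : Type} (X : ℕ → Finset V) (P ν : ℕ → ℕ) (N : ℕ) :
    ((phlp X P ν N).map Prod.snd).sum = ∑ i ∈ range N, ν i * P i := by
  induction N with
  | zero => rfl
  | succ N ih =>
    change ((phlp X P ν N ++ List.replicate (ν N) (X N, P N)).map Prod.snd).sum = _
    rw [List.map_append, List.sum_append, ih, List.map_replicate, List.sum_replicate, smul_eq_mul,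
      sum_range_succ]

section

variable {V β : Type} [Fintype V] [DecidableEq V] [DecidableEq β] {F : SimpleGraph V}
  {W : Finset V} {L : ℕ} {X : ℕ → Finset V} {P ν : ℕ → ℕ} {t : ℕ} {T : ℕ → ℕ} {B : Finset β}
  {M : V → Finset β} {c : Finset V → ℕ}

theorem XsubW (h : Loc F W L X P ν t T B M c) (j : ℕ) : X j ⊆ W := by
  rw [← h.XL (max j L) (le_max_right _ _)]
  exact h.Xmono (le_max_left _ _)

theorem Pmono' (h : Loc F W L X P ν t T B M c) {i j : ℕ} (hij : i ≤ j) (hj : j ≤ L) :
    P i ≤ P j := by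
  induction j, hij using Nat.le_induction with
  | base => exact le_rfl
  | succ j hij ih => exact (ih (by omega)).trans (h.Pmono j (by omega)).le

/-- the caps and the missed colours -/
theorem cap_le (h : Loc F W L X P ν t T B M c) {j : ℕ} (hj : j ≤ L) {v : V} (hv : v ∈ X j) :
    (cw F W v).card + (M v).card ≤ P j := by
  classical
  have hex : ∃ i, v ∈ X i := ⟨j, hv⟩
  have h1 := Nat.find_spec hex
  have h2 : Nat.find hex ≤ j := Nat.find_min' hex hv
  have h3 := h.colW (Nat.find hex) (by omega) v h1 (fun i hi => Nat.find_min hex hi) (cw F W v)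
    (fun u => mem_cw)
  exact h3.trans (Pmono' h h2 hj)

theorem Ok_phl (h : Loc F W L X P ν t T B M c) (i : ℕ) (K0 : Finset V)
    (hd : W.card ≤ (Und F W K0).card + ∑ j ∈ range i, ν j * P j) :
    ∀ N, i + N ≤ L + 1 → Ok F (phl (fun j => X (i + j)) (fun j => ν (i + j)) N) K0 := by
  intro N hN
  rw [← phlp_fst _ (fun j => P (i + j))]
  refine Ok_of_Fit _ _ K0 ?_ hd
  clear hd
  induction N with
  | zero => exact trivial
  | succ N ih =>
    refine Fit_append _ _ _ (ih (by omega)) ?_
    rw [phlp_snd]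
    refine Fit_replicate (XsubW h _) (fun v hv => ?_) _ _ ?_
    · have := cap_le h (show i + N ≤ L by omega) hv
      simp only
      omega
    · have h1 := h.Xcard (i + N) (by omega)
      rw [sum_range_succ] at h1
      simp only
      have h2 : ∑ j ∈ range i, ν j * P j + ∑ j ∈ range N, ν (i + j) * P (i + j) =
          ∑ j ∈ range (i + N), ν j * P j := (sum_range_add _ _ _).symm
      omega

/-- the lower bound, given the inequalities for the maximal sets and for the sets with more
elements; `ρ` is the distribution of the picks of the phase `0` -/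
theorem Loc_flow (h : Loc F W L X P ν t T B M c) {C : ℝ} (hC : 0 ≤ C) {ρ : Finset V → ℝ}
    (hρ : ∀ K, ρ K ≠ 0 → K ∈ Ind F (X 0) ∧ K.card = ν 0)
    (hρ1 : 1 ≤ ∑ K ∈ (Ind F (X 0)).filter (fun K => K.card = ν 0), ρ K) (s : ℕ)
    (hA : ∀ i < s, ∀ K ∈ Ind F W, K.card = (∑ j ∈ range (L + 1), ν j) + i → Und F W K = ∅ →
      C * Rs F W (mix F ρ (phl (fun j => X (1 + j)) (fun j => ν (1 + j)) L)) i K ≤
        Bs F W (fun K => (c K : ℝ)) i K)
    (hB : ∀ K ∈ Ind F W, K.card = (∑ j ∈ range (L + 1), ν j) + s →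
      C * Rs F W (mix F ρ (phl (fun j => X (1 + j)) (fun j => ν (1 + j)) L)) s K ≤
        Bs F W (fun K => (c K : ℝ)) s K) : C ≤ ∑ K ∈ Ind F W, (c K : ℝ) := by
  classical
  refine flow (fun K => Nat.cast_nonneg _) hC ?_ hA hB
  have hsub : Ind F (X 0) ⊆ Ind F W := by
    intro K hK
    rw [mem_Ind] at hK ⊢
    exact ⟨hK.1.trans (XsubW h 0), hK.2⟩
  have h1 := mix_total (F := F) (W := W) (ρ := ρ) (n := ν 0)
    (ys := phl (fun j => X (1 + j)) (fun j => ν (1 + j)) L) (by
      intro A hA
      obtain ⟨j, _, rfl⟩ := mem_phl hA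
      exact XsubW h _) (by
      intro K hK
      obtain ⟨h2, h3⟩ := hρ K hK
      refine ⟨hsub h2, h3, Ok_phl h 1 K ?_ L (by omega)⟩
      rw [sum_range_one]
      have h4 : ∀ A : Finset V, A ⊆ X 0 → W.card ≤ (Und F W A).card + A.card * P 0 := by
        intro A
        induction A using Finset.induction_on with
        | empty =>
          intro _
          have : Und F W ∅ = W := by
            ext v
            rw [mem_Und]
            simp
          rw [this, card_empty, zero_mul, add_zero]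
        | insert a A ha ih =>
          intro hA
          have h5 := ih ((subset_insert a A).trans hA)
          have h6 := card_Und_insert (F := F) W A a
          have h7 := cap_le h (Nat.zero_le L) (hA (mem_insert_self a A))
          rw [card_insert_of_notMem ha, add_mul, one_mul]
          omega
      have h5 := h4 K (mem_Ind.1 h2).1
      rwa [h3] at h5)
  have hlen : (phl (fun j => X (1 + j)) (fun j => ν (1 + j)) L).length =
      ∑ j ∈ range L, ν (1 + j) := phl_length _ _ _
  rw [hlen] at h1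
  have h2 : ν 0 + ∑ j ∈ range L, ν (1 + j) = ∑ j ∈ range (L + 1), ν j := by
    rw [sum_range_succ', add_comm]
    congr 1
    exact sum_congr rfl fun j _ => by rw [add_comm]
  rw [h2] at h1
  rw [h1]
  refine hρ1.trans (le_of_eq ?_)
  refine sum_subset ?_ ?_
  · intro K hK
    rw [mem_filter] at hK ⊢
    exact ⟨hsub hK.1, hK.2⟩
  · intro K hK hK'
    by_contra h0
    exact hK' (mem_filter.2 (hρ K h0))

/-- `Loc_flow` without tail -/
theorem Loc_flow' (h : Loc F W L X P ν 0 T B M c) {C : ℝ} (hC : 0 ≤ C) {ρ : Finset V → ℝ}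
    (hρ : ∀ K, ρ K ≠ 0 → K ∈ Ind F (X 0) ∧ K.card = ν 0)
    (hρ1 : 1 ≤ ∑ K ∈ (Ind F (X 0)).filter (fun K => K.card = ν 0), ρ K)
    (hA : ∀ K ∈ Ind F W, K.card = ∑ j ∈ range (L + 1), ν j → Und F W K = ∅ →
      C * mix F ρ (phl (fun j => X (1 + j)) (fun j => ν (1 + j)) L) K ≤ c K)
    (hB : ∀ K ∈ Ind F W, K.card = (∑ j ∈ range (L + 1), ν j) + 1 →
      C * mix F ρ (phl (fun j => X (1 + j)) (fun j => ν (1 + j)) L ++ [W]) K ≤
        c K + ∑ v ∈ K, (c (K.erase v) : ℝ) / ((Und F W (K.erase v)).card : ℝ)) :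
    C ≤ ∑ K ∈ Ind F W, (c K : ℝ) := by
  refine Loc_flow h hC hρ hρ1 1 (fun i hi K hK hc hU => ?_) (fun K hK hc => ?_)
  · obtain rfl : i = 0 := by omega
    exact hA K hK (by omega) hU
  · have h1 := hB K hK hc
    rw [mix_append, ← up_eq_mix hK] at h1
    exact h1

end

end MP76b19e.Ph
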